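import Pool.Agent.Helper12.XG.St

/-! Module THE of project XG: a polynomial which is 1 at zero and small near `-1, ..., -E²`. -/

set_option autoImplicit false

namespace Pool.Agent.Helper10.XG

open Finset Polynomial Pool.Agent.Helper12.XG Pool.Agent.Helper14.GS

theorem hTHE (h1 : StCHD) (h2 : StCHG) : StTHE := by
  intro E G hE
  have hE' : (2 : ℝ) ≤ (E : ℝ) := by exact_mod_cast hE
  have hE0 : (0 : ℝ) < (E : ℝ) := by linarith
  obtain ⟨h, hh⟩ : ∃ h : ℝ, h = (E : ℝ) ^ 2 := ⟨_, rfl⟩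
  have hh4 : 4 ≤ h := by rw [hh]; nlinarith
  have hh0 : 0 < h := by linarith
  obtain ⟨D, hD⟩ : ∃ D : ℕ, D = E * G := ⟨_, rfl⟩
  have hDr : (D : ℝ) = (E : ℝ) * (G : ℝ) := by rw [hD]; push_cast; ring
  obtain ⟨c0, hc0⟩ : ∃ c0 : ℂ, c0 = (Chebyshev.T ℂ (D : ℤ)).eval ((1 + 2 / h : ℝ) : ℂ) := ⟨_, rfl⟩
  have hG0 : (0 : ℝ) ≤ (G : ℝ) := Nat.cast_nonneg G
  -- lower bound at zero
  have hlow : Real.exp (14 / 10 * (G : ℝ)) / 2 ≤ ‖c0‖ := by
    rw [hc0]
    refine le_trans ?_ (h2 D (2 / h) (by positivity) (by rw [div_le_one hh0]; linarith))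
    refine div_le_div_of_nonneg_right (Real.exp_le_exp.2 ?_) (by norm_num)
    have e1 : (14 / 10 : ℝ) / E ≤ Real.sqrt (2 / h) := by
      refine Real.le_sqrt_of_sq_le ?_
      rw [div_pow, ← hh]
      exact div_le_div_of_nonneg_right (by norm_num) hh0.le
    calc 14 / 10 * (G : ℝ) = (D : ℝ) * ((14 / 10 : ℝ) / E) := by
          rw [hDr]; field_simp
      _ ≤ (D : ℝ) * Real.sqrt (2 / h) := mul_le_mul_of_nonneg_left e1 (Nat.cast_nonneg D)
  have hc0pos : 0 < ‖c0‖ := lt_of_lt_of_le (by positivity) hlow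
  have hc0ne : c0 ≠ 0 := norm_pos_iff.1 hc0pos
  obtain ⟨L, hL⟩ : ∃ L : ℂ[X], L = C ((2 / h : ℝ) : ℂ) * X + C ((1 + 2 / h : ℝ) : ℂ) := ⟨_, rfl⟩
  refine ⟨C c0⁻¹ * (Chebyshev.T ℂ (D : ℤ)).comp L, ?_, ?_, ?_⟩
  · refine (natDegree_C_mul_le _ _).trans ?_
    rw [natDegree_comp]
    have e1 : (Chebyshev.T ℂ (D : ℤ)).natDegree ≤ D := by
      have := Chebyshev.natDegree_T ℂ (D : ℤ)
      rw [this]
      simp
    have e2 : L.natDegree ≤ 1 := by
      rw [hL]
      exact natDegree_linear_le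
    calc (Chebyshev.T ℂ (D : ℤ)).natDegree * L.natDegree ≤ D * 1 := Nat.mul_le_mul e1 e2
      _ = E * G := by rw [mul_one, hD]
  · have e1 : L.eval 0 = ((1 + 2 / h : ℝ) : ℂ) := by
      rw [hL]
      simp
    rw [eval_mul, eval_C, eval_comp, e1, ← hc0]
    exact inv_mul_cancel₀ hc0ne
  · intro i hi1 hi2 z hz
    have hi1' : (1 : ℝ) ≤ (i : ℝ) := by exact_mod_cast hi1
    have hi2' : (i : ℝ) ≤ h := by rw [hh]; exact_mod_cast hi2
    have e1 : L.eval z - ((1 - 2 * ((i : ℝ) - 1) / h : ℝ) : ℂ) = ((2 / h : ℝ) : ℂ) * (z + (i : ℂ)) := by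
      rw [hL]
      simp only [eval_add, eval_mul, eval_C, eval_X]
      push_cast
      ring
    have e2 : ‖L.eval z - ((1 - 2 * ((i : ℝ) - 1) / h : ℝ) : ℂ)‖ ≤ 1 / (8 * h) := by
      rw [e1, norm_mul, Complex.norm_real, Real.norm_of_nonneg (by positivity)]
      calc 2 / h * ‖z + (i : ℂ)‖ ≤ 2 / h * (1 / 16) :=
            mul_le_mul_of_nonneg_left hz (by positivity)
        _ = 1 / (8 * h) := by field_simp; norm_num
    have e3 := h1 D (1 - 2 * ((i : ℝ) - 1) / h) (1 / (8 * h)) (L.eval z)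
      (by
        have : 2 * ((i : ℝ) - 1) / h ≤ 2 := by
          rw [div_le_iff₀ hh0]
          linarith
        linarith)
      (by
        have : 0 ≤ 2 * ((i : ℝ) - 1) / h := by
          apply div_nonneg _ hh0.le
          linarith
        linarith) (by positivity) e2
    have e4 : (D : ℝ) * Real.sqrt (2 * (1 / (8 * h))) = (G : ℝ) / 2 := by
      have e5 : 2 * (1 / (8 * h)) = (1 / (2 * (E : ℝ))) ^ 2 := by
        rw [hh]
        field_simp
        norm_num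
      rw [e5, Real.sqrt_sq (by positivity), hDr]
      field_simp
    rw [e4] at e3
    rw [eval_mul, eval_C, eval_comp, norm_mul, norm_inv]
    have e6 : ‖c0‖⁻¹ ≤ 2 * Real.exp (-(14 / 10 * (G : ℝ))) := by
      rw [inv_le_comm₀ hc0pos (by positivity)]
      refine le_trans (le_of_eq ?_) hlow
      rw [mul_inv, Real.exp_neg, inv_inv]
      ring
    calc ‖c0‖⁻¹ * ‖eval (eval z L) (Chebyshev.T ℂ (D : ℤ))‖
        ≤ (2 * Real.exp (-(14 / 10 * (G : ℝ)))) * Real.exp ((G : ℝ) / 2) :=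
          mul_le_mul e6 e3 (norm_nonneg _) (by positivity)
      _ = 2 * Real.exp (-(9 / 10) * G) := by
          rw [mul_assoc, ← Real.exp_add]
          congr 2
          ring

end Pool.Agent.Helper10.XG
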